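import Pool.Agent.K7.H94.Sgn.Main

set_option autoImplicit false

/-!
# Central extensions of Coxeter groups by a sign

For a sign choice `c` on the pairs of generators of a Coxeter system the group `W'` with generators
`S ∪ {q}` is an extension of `W` by `{1, q} ≅ ℤ/2`; in particular `q ≠ 1`.
-/

namespace Pool.Agent.Results.MP_07fa45_al.SignExtension

open Pool.Agent.Helper741 Pool.Agent.TH107 Pool.Agent.K7.H94.Sgn

variable {S : Type*} {M : CoxeterMatrix S} {W : Type*} [Group W]

/-- `(s, t)` belongs to the set `𝔐` of pairs with `s ≠ t` and `m_{s,t} < ∞`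
(`m_{s,t} = ∞` is coded by `M s t = 0`). -/
def FinPair (M : CoxeterMatrix S) (s t : S) : Prop := s ≠ t ∧ M s t ≠ 0

/-- A sign choice: a family of signs on `𝔐`, constant on the classes of pairs which are conjugate
in `W`, and symmetric. -/
structure SignChoice (cs : CoxeterSystem M W) where
  /-- the signs -/
  c : S → S → ℤˣ
  conj : ∀ s t s' t' : S, FinPair M s t → FinPair M s' t' →
    (∃ g : W, g * cs.simple s * g⁻¹ = cs.simple s' ∧ g * cs.simple t * g⁻¹ = cs.simple t') →
    c s t = c s' t'
  symm : ∀ s t : S, FinPair M s t → c s t = c t s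

/-- The letter of the generator `s` in the free group on `S ∪ {q}`. -/
def x (s : S) : FreeGroup (Option S) := FreeGroup.of (some s)

/-- The letter of the generator `q` in the free group on `S ∪ {q}`. -/
def y (S : Type*) : FreeGroup (Option S) := FreeGroup.of none

/-- The defining relators of `W'`. -/
def relators {cs : CoxeterSystem M W} (c : SignChoice cs) : Set (FreeGroup (Option S)) :=
  {r | (∃ s, r = x s ^ 2) ∨ r = y S ^ 2 ∨ (∃ s, r = (y S * x s) * (x s * y S)⁻¹) ∨
    (∃ s t, FinPair M s t ∧ c.c s t = 1 ∧ r = (x s * x t) ^ M s t) ∨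
    (∃ s t, FinPair M s t ∧ c.c s t = -1 ∧ r = (x s * x t) ^ M s t * (y S)⁻¹)}

/-- The group `W'`. -/
abbrev Ext {cs : CoxeterSystem M W} (c : SignChoice cs) : Type _ := PresentedGroup (relators c)

/-- The generator `s` of `W'`. -/
def gen {cs : CoxeterSystem M W} (c : SignChoice cs) (s : S) : Ext c := PresentedGroup.of (some s)

/-- The generator `q` of `W'`. -/
def q {cs : CoxeterSystem M W} (c : SignChoice cs) : Ext c := PresentedGroup.of none

section
variable {cs : CoxeterSystem M W} (c : SignChoice cs)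

lemma rel_one {r : FreeGroup (Option S)} (h : r ∈ relators c) :
    (PresentedGroup.mk (relators c) r) = 1 := PresentedGroup.one_of_mem h

lemma gen_sq (s : S) : gen c s * gen c s = 1 := by
  have h := rel_one c (r := x s ^ 2) (Or.inl ⟨s, rfl⟩)
  rw [map_pow, pow_two] at h
  exact h

lemma q_sq : q c * q c = 1 := by
  have h := rel_one c (r := y S ^ 2) (Or.inr (Or.inl rfl))
  rw [map_pow, pow_two] at h
  exact h

lemma q_comm (s : S) : q c * gen c s = gen c s * q c := by
  have h := rel_one c (r := (y S * x s) * (x s * y S)⁻¹) (Or.inr (Or.inr (Or.inl ⟨s, rfl⟩)))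
  rw [map_mul, map_inv, mul_inv_eq_one, map_mul, map_mul] at h
  exact h

lemma gen_pow {s t : S} (h : FinPair M s t) :
    (gen c s * gen c t) ^ M s t = 1 ∨ (gen c s * gen c t) ^ M s t = q c := by
  rcases Int.units_eq_one_or (c.c s t) with h1 | h1
  · left
    have h2 := rel_one c (r := (x s * x t) ^ M s t)
      (Or.inr (Or.inr (Or.inr (Or.inl ⟨s, t, h, h1, rfl⟩))))
    rw [map_pow, map_mul] at h2
    exact h2
  · right
    have h2 := rel_one c (r := (x s * x t) ^ M s t * (y S)⁻¹)
      (Or.inr (Or.inr (Or.inr (Or.inr ⟨s, t, h, h1, rfl⟩))))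
    rw [map_mul, map_inv, mul_inv_eq_one, map_pow, map_mul] at h2
    exact h2

lemma q_central (g : Ext c) : q c * g = g * q c := by
  obtain ⟨r, rfl⟩ := PresentedGroup.mk_surjective (relators c) g
  induction r using FreeGroup.induction_on with
  | C1 => simp
  | of a =>
    cases a with
    | none => rfl
    | some s => exact q_comm c s
  | inv_of a ih =>
    rw [map_inv]
    exact (Commute.inv_right ih)
  | mul a b iha ihb =>
    rw [map_mul]
    exact (Commute.mul_right iha ihb)

/-- the projection -/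
lemma exists_pi : ∃ π : Ext c →* W, (∀ s, π (gen c s) = cs.simple s) ∧ π (q c) = 1 := by
  have h : ∀ r ∈ relators c, FreeGroup.lift (fun o : Option S => o.elim 1 cs.simple) r = 1 := by
    rintro r (⟨s, rfl⟩ | rfl | ⟨s, rfl⟩ | ⟨s, t, -, -, rfl⟩ | ⟨s, t, -, -, rfl⟩)
    · simp [x]
    · simp [y]
    · simp [x, y]
    · simp [x]
    · simp [x, y]
  refine ⟨PresentedGroup.toGroup h, fun s => ?_, ?_⟩
  · exact PresentedGroup.toGroup.of h
  · exact PresentedGroup.toGroup.of h

lemma q_ne_one [Finite S] : q c ≠ 1 := by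
  classical
  have := Fintype.ofFinite S
  obtain ⟨d, hd⟩ : ∃ d : S → S → Prop, ∀ s t, d s t ↔ c.c s t = -1 := ⟨_, fun _ _ => Iff.rfl⟩
  have hsymm : ∀ i j, i ≠ j → M i j ≠ 0 → d i j → d j i := by
    intro i j h1 h2 h3
    rw [hd] at h3 ⊢
    rw [← c.symm i j ⟨h1, h2⟩]
    exact h3
  have hconj : ∀ i j i' j' (g : W), i ≠ j → M i j ≠ 0 → i' ≠ j' → M i' j' ≠ 0 →
      g * cs.simple i * g⁻¹ = cs.simple i' → g * cs.simple j * g⁻¹ = cs.simple j' →
      (d i j ↔ d i' j') := by
    intro i j i' j' g h1 h2 h3 h4 h5 h6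
    rw [hd, hd, c.conj i j i' j' ⟨h1, h2⟩ ⟨h3, h4⟩ ⟨g, h5, h6⟩]
  have hQ2 : QQ W * QQ W = 1 := by
    ext x
    · rfl
    · obtain ⟨w, e⟩ := x
      simp only [Equiv.Perm.mul_apply, Equiv.Perm.coe_one, id_eq]
      change e + 1 + 1 = e
      rw [add_assoc, CharTwo.add_self_eq_zero, add_zero]
  have h : ∀ r ∈ relators c, FreeGroup.lift
      (fun o : Option S => o.elim (QQ W) (PP cs (phi cs d))) r = 1 := by
    rintro r (⟨s, rfl⟩ | rfl | ⟨s, rfl⟩ | ⟨s, t, h1, h2, rfl⟩ | ⟨s, t, h1, h2, rfl⟩)
    · simp only [x, map_pow, FreeGroup.lift_apply_of, Option.elim_some]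
      rw [pow_two, PP_sq]
    · simp only [y, map_pow, FreeGroup.lift_apply_of, Option.elim_none]
      rw [pow_two, hQ2]
    · simp only [x, y, map_mul, map_inv, FreeGroup.lift_apply_of, Option.elim_some, Option.elim_none]
      rw [mul_inv_eq_one]
      ext z
      · rfl
      · obtain ⟨w, e⟩ := z
        simp only [Equiv.Perm.mul_apply, PP_apply]
        change e + ff cs (phi cs d) s w + 1 = e + 1 + ff cs (phi cs d) s w
        ring
    · simp only [x, map_pow, map_mul, FreeGroup.lift_apply_of, Option.elim_some]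
      apply Equiv.ext
      rintro ⟨w, e⟩
      rw [PP_pow hsymm hconj h1.1 h1.2, if_neg (by rw [hd, h2]; decide)]
      simp
    · simp only [x, y, map_pow, map_mul, map_inv, FreeGroup.lift_apply_of, Option.elim_some,
        Option.elim_none]
      rw [mul_inv_eq_one]
      apply Equiv.ext
      rintro ⟨w, e⟩
      rw [PP_pow hsymm hconj h1.1 h1.2, if_pos (by rw [hd, h2])]
      rfl
  intro hq
  have h1 : PresentedGroup.toGroup h (q c) = QQ W := PresentedGroup.toGroup.of h
  rw [hq, map_one] at h1
  have h2 := congrArg (fun g : Equiv.Perm (W × ZMod 2) => (g (1, 0)).2) h1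
  change (0 : ZMod 2) = 0 + 1 at h2
  exact absurd h2 (by decide)

/-- an element of the kernel is `1` or `q` -/
lemma mem_ker {π : Ext c →* W} (h1 : ∀ s, π (gen c s) = cs.simple s) (h2 : π (q c) = 1)
    {g : Ext c} (hg : π g = 1) : g = 1 ∨ g = q c := by
  classical
  let Z : Subgroup (Ext c) := Subgroup.zpowers (q c)
  have hZ : Z.Normal := by
    constructor
    intro n hn a
    obtain ⟨k, rfl⟩ := Subgroup.mem_zpowers_iff.1 hn
    have : Commute (q c ^ k) a := (Commute.zpow_left (q_central c a) k)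
    rw [← this.eq, mul_assoc, mul_inv_cancel, mul_one]
    exact hn
  have hq : ((q c : Ext c) : Ext c ⧸ Z) = 1 := (QuotientGroup.eq_one_iff _).2 (Subgroup.mem_zpowers _)
  have hlift : M.IsLiftable (fun s => ((gen c s : Ext c) : Ext c ⧸ Z)) := by
    intro s t
    by_cases hst : s = t
    · subst hst
      rw [M.diagonal, pow_one, ← QuotientGroup.mk_mul, gen_sq]
      rfl
    · by_cases h0 : M s t = 0
      · rw [h0, pow_zero]
      · rw [← QuotientGroup.mk_mul, ← QuotientGroup.mk_pow]
        rcases gen_pow c ⟨hst, h0⟩ with h | h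
        · rw [h]; rfl
        · rw [h, hq]
  let σ : W →* Ext c ⧸ Z := cs.lift ⟨_, hlift⟩
  have hσ : ∀ g : Ext c, σ (π g) = (g : Ext c ⧸ Z) := by
    intro g
    obtain ⟨r, rfl⟩ := PresentedGroup.mk_surjective (relators c) g
    induction r using FreeGroup.induction_on with
    | C1 => simp
    | of a =>
      cases a with
      | none =>
        change σ (π (q c)) = ((q c : Ext c) : Ext c ⧸ Z)
        rw [h2, map_one, hq]
      | some s =>
        change σ (π (gen c s)) = ((gen c s : Ext c) : Ext c ⧸ Z)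
        rw [h1]
        exact cs.lift_apply_simple hlift s
    | inv_of a ih => rw [map_inv, map_inv, map_inv, ih]; rfl
    | mul a b iha ihb => rw [map_mul, map_mul, map_mul, iha, ihb]; rfl
  have h3 := hσ g
  rw [hg, map_one, eq_comm, QuotientGroup.eq_one_iff] at h3
  obtain ⟨k, rfl⟩ := Subgroup.mem_zpowers_iff.1 h3
  have hq2 : q c ^ (2 : ℤ) = 1 := by rw [zpow_two, q_sq]
  rcases Int.even_or_odd k with ⟨m, rfl⟩ | ⟨m, rfl⟩
  · left
    rw [← two_mul, zpow_mul, hq2, one_zpow]
  · right
    rw [zpow_add, zpow_mul, hq2, one_zpow, one_mul, zpow_one]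

end

/-- **Theorem.** Let `(W, S)` be a Coxeter system with `S` finite and let `c` be a sign choice. Then
`1 → ℤ/2 → W' → W → 1` is exact, where `ℤ/2 → W'` sends the generator to `q` and `W' → W` sends
`s` to `s` and `q` to `1`. In particular `q ≠ 1` in `W'` and the kernel of `W' → W` has two
elements. -/
theorem result {S : Type*} [Finite S] (M : CoxeterMatrix S) {W : Type*} [Group W]
    (cs : CoxeterSystem M W) (c : SignChoice cs) :
    ∃ (ι : Multiplicative (ZMod 2) →* Ext c) (π : Ext c →* W),
      ι (Multiplicative.ofAdd 1) = q c ∧ (∀ s, π (gen c s) = cs.simple s) ∧ π (q c) = 1 ∧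
      Function.Injective ι ∧ ι.range = π.ker ∧ Function.Surjective π ∧
      q c ≠ 1 ∧ Nat.card π.ker = 2 := by
  obtain ⟨π, h1, h2⟩ := exists_pi c
  have hq := q_ne_one c
  have hord : orderOf (q c) = 2 := by
    apply orderOf_eq_prime
    · rw [pow_two, q_sq]
    · exact hq
  have hall : ∀ z : Multiplicative (ZMod 2), z = 1 ∨ z = Multiplicative.ofAdd 1 := by
    intro z
    have : ∀ e : ZMod 2, e = 0 ∨ e = 1 := by decide
    exact this z.toAdd
  obtain ⟨ι, hι⟩ : ∃ ι : Multiplicative (ZMod 2) →* Ext c, ι (Multiplicative.ofAdd 1) = q c := by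
    refine ⟨⟨⟨fun z => q c ^ (z.toAdd.val), ?_⟩, ?_⟩, ?_⟩
    · change q c ^ 0 = 1
      exact pow_zero _
    · intro a b
      rcases hall a with rfl | rfl
      · change q c ^ _ = q c ^ 0 * _
        rw [pow_zero, one_mul, one_mul]
      · rcases hall b with rfl | rfl
        · change q c ^ _ = _ * q c ^ 0
          rw [pow_zero, mul_one, mul_one]
        · change q c ^ 0 = q c ^ 1 * q c ^ 1
          rw [pow_zero, pow_one, q_sq]
    · change q c ^ 1 = q c
      exact pow_one _
  have hinj : Function.Injective ι := by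
    rw [injective_iff_map_eq_one]
    intro z hz
    rcases hall z with rfl | rfl
    · rfl
    · rw [hι] at hz
      exact absurd hz hq
  have hrange : ι.range = π.ker := by
    ext g
    rw [MonoidHom.mem_range, MonoidHom.mem_ker]
    constructor
    · rintro ⟨z, rfl⟩
      rcases hall z with rfl | rfl
      · simp
      · rw [hι, h2]
    · intro hg
      rcases mem_ker c h1 h2 hg with rfl | rfl
      · exact ⟨1, map_one ι⟩
      · exact ⟨_, hι⟩
  refine ⟨ι, π, hι, h1, h2, hinj, hrange, ?_, hq, ?_⟩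
  · intro w
    induction w using cs.simple_induction with
    | simple i => exact ⟨gen c i, h1 i⟩
    | one => exact ⟨1, map_one π⟩
    | mul w w' hw hw' =>
      obtain ⟨a, rfl⟩ := hw
      obtain ⟨b, rfl⟩ := hw'
      exact ⟨a * b, map_mul π a b⟩
  · rw [← hrange]
    have h5 : Nat.card ι.range = Nat.card (Multiplicative (ZMod 2)) :=
      (Nat.card_congr (MonoidHom.ofInjective hinj).toEquiv).symm
    rw [h5]
    simp

end Pool.Agent.Results.MP_07fa45_al.SignExtension
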